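import Pool.Agent.Y806.DF.A
import Pool.Agent.TH513.IS.Sums

/-!
# Sets of integers which are not covered by few progressions of smaller dimension
-/

set_option autoImplicit false

namespace Pool.Agent.Q297.IT

open Finset Module Pool.Agent.Y806.DF Pool.Agent.TH513.IS
open scoped Pointwise

/-- the box `{0, …, N-1}^d` -/
noncomputable def bx (d N : ℕ) : Finset (Fin d → ℤ) := Fintype.piFinset fun _ => Finset.Ico (0 : ℤ) N

theorem bx_card (d N : ℕ) : (bx d N).card = N ^ d := by
  rw [bx, Fintype.card_piFinset]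
  simp

theorem mem_bx {d N : ℕ} {a : Fin d → ℤ} : a ∈ bx d N ↔ ∀ j, 0 ≤ a j ∧ a j < N := by
  rw [bx, Fintype.mem_piFinset]
  simp only [Finset.mem_Ico]

theorem bx_sm {n : ℕ} (hn : 1 ≤ n) (d N : ℕ) :
    (sm (bx d N) n).card ≤ n ^ d * (bx d N).card := by
  have h1 : sm (bx d N) n ⊆ bx d (n * N) := by
    intro x hx
    obtain ⟨f, hf, rfl⟩ := mem_sm.1 hx
    rw [mem_bx]
    intro j
    have h2 : ∀ i, 0 ≤ f i j ∧ f i j ≤ (N : ℤ) - 1 := by
      intro i
      have h4 := mem_bx.1 (hf i) j
      omega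
    rw [Finset.sum_apply]
    constructor
    · exact Finset.sum_nonneg fun i _ => (h2 i).1
    · have h5 : ∑ i, f i j ≤ ∑ _i : Fin n, ((N : ℤ) - 1) :=
        Finset.sum_le_sum fun i _ => (h2 i).2
      rw [Finset.sum_const, Finset.card_univ, Fintype.card_fin, nsmul_eq_mul] at h5
      have h6 : (n : ℤ) * ((N : ℤ) - 1) < ((n * N : ℕ) : ℤ) := by
        push_cast
        have : (1 : ℤ) ≤ n := by exact_mod_cast hn
        linarith
      exact lt_of_le_of_lt h5 h6
  have h2 := Finset.card_le_card h1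
  rw [bx_card] at h2
  rw [bx_card, ← mul_pow]
  exact h2

/-- the integer points of a dilate: `|ℤ^r ∩ k B| ≤ (2 k)^r |ℤ^r ∩ B|` -/
theorem num_mul {r : ℕ} {B : Set (Fin r → ℝ)} (hB : Sym B) {k : ℕ} (hk : 1 ≤ k) :
    num B k ≤ (2 * k) ^ r * num B 1 := by
  classical
  have h1 := hB.finite (k : ℝ)
  have h2 := hB.finite (1 : ℝ)
  have e1 : num B k = h1.toFinset.card := Set.ncard_eq_toFinset_card _ h1
  have e2 : num B 1 = h2.toFinset.card := Set.ncard_eq_toFinset_card _ h2
  rw [e1, e2]
  have : NeZero (2 * k) := ⟨by omega⟩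
  have hkR : (1 : ℝ) ≤ k := by exact_mod_cast hk
  let f : (Fin r → ℤ) → (Fin r → ZMod (2 * k)) := fun v i => (v i : ZMod (2 * k))
  have hdvd : ∀ (u w : Fin r → ℤ), f u = f w → ∀ i, ((2 * k : ℕ) : ℤ) ∣ u i - w i := by
    intro u w huw i
    exact (ZMod.intCast_eq_intCast_iff_dvd_sub (w i) (u i) (2 * k)).1 (congrFun huw i).symm
  have hm0 : ((2 * k : ℕ) : ℤ) ≠ 0 := by
    have : 2 * k ≠ 0 := by omega
    exact_mod_cast this
  have h3 : h1.toFinset.card ≤ h2.toFinset.card * (h1.toFinset.image f).card := by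
    refine Finset.card_le_mul_card_image _ _ ?_
    intro a ha
    obtain ⟨x0, hx0, hfx0⟩ := Finset.mem_image.1 ha
    have hx0' : x0 ∈ lat ((k : ℝ) • B) := (Set.Finite.mem_toFinset _).1 hx0
    refine Finset.card_le_card_of_injOn (fun v => fun i => (v i - x0 i) / ((2 * k : ℕ) : ℤ)) ?_ ?_
    · intro v hv
      have hv' := Finset.mem_filter.1 (Finset.mem_coe.1 hv)
      have hv1 : v ∈ lat ((k : ℝ) • B) := (Set.Finite.mem_toFinset _).1 hv'.1
      have hd := hdvd v x0 (by rw [hv'.2, hfx0])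
      rw [Finset.mem_coe, Set.Finite.mem_toFinset]
      have h6 := hB.sub (by positivity) (by positivity) hv1 hx0'
      show re _ ∈ (1 : ℝ) • B
      have h7 : re (fun i => (v i - x0 i) / ((2 * k : ℕ) : ℤ)) =
          (1 / (2 * k) : ℝ) • re (v - x0) := by
        funext i
        obtain ⟨q, hq⟩ := hd i
        have h8 : (v i - x0 i) / ((2 * k : ℕ) : ℤ) = q := by
          rw [hq]; exact Int.mul_ediv_cancel_left q hm0
        show (((v i - x0 i) / ((2 * k : ℕ) : ℤ) : ℤ) : ℝ) = (1 / (2 * k) : ℝ) * ((v i - x0 i : ℤ) : ℝ)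
        rw [h8, hq]
        push_cast
        field_simp
      rw [h7]
      obtain ⟨b, hb, hb2⟩ := h6
      refine ⟨b, hb, ?_⟩
      show (1 : ℝ) • b = _
      rw [← hb2]
      show (1 : ℝ) • b = (1 / (2 * k) : ℝ) • (((k : ℝ) + k) • b)
      rw [smul_smul]
      congr 1
      field_simp
      ring
    · intro v hv w hw hvw
      have hv' := Finset.mem_filter.1 (Finset.mem_coe.1 hv)
      have hw' := Finset.mem_filter.1 (Finset.mem_coe.1 hw)
      funext i
      have h8 := congrFun hvw i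
      simp only at h8
      obtain ⟨p, hp⟩ := hdvd v x0 (by rw [hv'.2, hfx0]) i
      obtain ⟨q, hq⟩ := hdvd w x0 (by rw [hw'.2, hfx0]) i
      rw [hp, hq, Int.mul_ediv_cancel_left _ hm0, Int.mul_ediv_cancel_left _ hm0] at h8
      subst h8
      linarith
  have h4 : (h1.toFinset.image f).card ≤ (2 * k) ^ r := by
    refine (Finset.card_le_univ _).trans ?_
    rw [Fintype.card_fun, Fintype.card_fin]
    exact le_of_eq (by rw [ZMod.card])
  calc h1.toFinset.card ≤ h2.toFinset.card * (h1.toFinset.image f).card := h3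
    _ ≤ h2.toFinset.card * (2 * k) ^ r := Nat.mul_le_mul_left _ h4
    _ = (2 * k) ^ r * h2.toFinset.card := mul_comm _ _

/-- the homomorphism `x ↦ ∑ x_j W^j` -/
def dig (W : ℤ) (d : ℕ) : (Fin d → ℤ) →+ ℤ where
  toFun x := ∑ j, x j * W ^ (j : ℕ)
  map_zero' := by simp
  map_add' a b := by simp [add_mul, Finset.sum_add_distrib]

theorem dig_apply (W : ℤ) (d : ℕ) (x : Fin d → ℤ) : dig W d x = ∑ j, x j * W ^ (j : ℕ) := rfl

theorem dig_inj {W : ℤ} (hW : 0 < W) : ∀ (d : ℕ) (x : Fin d → ℤ), (∀ j, |x j| < W) →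
    dig W d x = 0 → x = 0 := by
  intro d
  induction d with
  | zero => intro x _ _; exact Subsingleton.elim _ _
  | succ d ih =>
    intro x hx h
    rw [dig_apply, Fin.sum_univ_succ] at h
    have e : ∑ j : Fin d, x j.succ * W ^ ((j.succ : Fin (d + 1)) : ℕ) =
        W * dig W d (fun j => x j.succ) := by
      rw [dig_apply, Finset.mul_sum]
      refine Finset.sum_congr rfl fun j _ => ?_
      rw [Fin.val_succ, pow_succ]
      ring
    rw [e] at h
    simp only [Fin.val_zero, pow_zero, mul_one] at h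
    have h0 : x 0 = 0 := by
      apply Int.eq_zero_of_abs_lt_dvd _ (hx 0)
      exact ⟨-dig W d (fun j => x j.succ), by linarith⟩
    rw [h0, zero_add] at h
    have h1 : dig W d (fun j => x j.succ) = 0 := by
      rcases mul_eq_zero.1 h with h2 | h2
      · omega
      · exact h2
    have h2 := ih _ (fun j => hx j.succ) h1
    funext j
    refine Fin.cases h0 (fun i => congrFun h2 i) j

/-- rational vector of an integer vector -/
def rq {d : ℕ} : (Fin d → ℤ) →+ (Fin d → ℚ) where
  toFun v := fun i => (v i : ℚ)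
  map_zero' := by funext i; simp
  map_add' a b := by funext i; simp

theorem rq_apply {d : ℕ} (v : Fin d → ℤ) (i : Fin d) : rq v i = (v i : ℚ) := rfl

theorem rq_inj {d : ℕ} {v w : Fin d → ℤ} (h : rq v = rq w) : v = w := by
  funext i
  have := congrFun h i
  rw [rq_apply, rq_apply] at this
  exact_mod_cast this

/-- a part of the box whose differences do not span is small -/
theorem span_small {d N : ℕ} (X : Finset (Fin d → ℤ)) (hX : X ⊆ bx d N) (a₀ : Fin d → ℤ)
    (h : Submodule.span ℚ (Set.range fun a : X => rq ((a : Fin d → ℤ) - a₀)) ≠ ⊤) :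
    X.card * N ≤ N ^ d := by
  classical
  obtain ⟨f, hf0, hf⟩ := Submodule.exists_le_ker_of_lt_top _ (lt_top_iff_ne_top.2 h)
  have hfa : ∀ a ∈ X, f (rq a) = f (rq a₀) := by
    intro a ha
    have h1 : rq (a - a₀) ∈ Submodule.span ℚ (Set.range fun a : X => rq ((a : Fin d → ℤ) - a₀)) :=
      Submodule.subset_span ⟨⟨a, ha⟩, rfl⟩
    have h2 : f (rq (a - a₀)) = 0 := hf h1
    rw [map_sub, map_sub] at h2
    linarith
  obtain ⟨i, hi⟩ : ∃ i, f (Pi.single i 1) ≠ 0 := by
    by_contra hcon
    push Not at hcon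
    apply hf0
    apply LinearMap.pi_ext'
    intro i
    apply LinearMap.ext_ring
    simpa using hcon i
  have h1 : (X ×ˢ (Finset.Ico (0 : ℤ) N)).card ≤ (bx d N).card := by
    refine Finset.card_le_card_of_injOn (fun p => Function.update p.1 i p.2) ?_ ?_
    · intro p hp
      have hp' := Finset.mem_product.1 (Finset.mem_coe.1 hp)
      have h2 := hX hp'.1
      rw [Finset.mem_coe]
      rw [bx, Fintype.mem_piFinset] at h2 ⊢
      intro j
      show Function.update p.1 i p.2 j ∈ _
      by_cases hj : j = i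
      · subst hj
        rw [Function.update_self]
        exact hp'.2
      · rw [Function.update_of_ne hj]
        exact h2 j
    · rintro ⟨a, k⟩ hp ⟨a', k'⟩ hp' hpp
      have hq := Finset.mem_product.1 (Finset.mem_coe.1 hp)
      have hq' := Finset.mem_product.1 (Finset.mem_coe.1 hp')
      have hpp : Function.update a i k = Function.update a' i k' := hpp
      have hk : k = k' := by
        have := congrFun hpp i
        rwa [Function.update_self, Function.update_self] at this
      have hoff : ∀ j, j ≠ i → a j = a' j := by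
        intro j hj
        have := congrFun hpp j
        rwa [Function.update_of_ne hj, Function.update_of_ne hj] at this
      have hff : f (rq a) = f (rq a') := by rw [hfa a hq.1, hfa a' hq'.1]
      have hdiff : rq a - rq a' = ((a i : ℚ) - a' i) • (Pi.single i (1 : ℚ) : Fin d → ℚ) := by
        funext j
        rw [Pi.sub_apply, Pi.smul_apply, rq_apply, rq_apply]
        by_cases hj : j = i
        · subst hj
          simp
        · rw [hoff j hj, Pi.single_eq_of_ne hj]
          simp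
      have h4 : f (rq a - rq a') = 0 := by rw [map_sub, hff, sub_self]
      rw [hdiff, map_smul, smul_eq_mul] at h4
      have h5 : (a i : ℚ) - a' i = 0 := by
        rcases mul_eq_zero.1 h4 with h | h
        · exact h
        · exact absurd h hi
      have h6 : a i = a' i := by
        have : (a i : ℚ) = a' i := by linarith
        exact_mod_cast this
      have h7 : a = a' := by
        funext j
        by_cases hj : j = i
        · rw [hj]; exact h6
        · exact hoff j hj
      rw [h7, hk]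
  rw [Finset.card_product, Int.card_Ico, bx_card] at h1
  simpa using h1

/-- linear combinations with coefficients in `{0, …, R}` of `d` integer points of `2 B` -/
theorem comb_mem {r : ℕ} {B : Set (Fin r → ℝ)} (hB : Sym B) {d R : ℕ} (y : Fin d → Fin r → ℤ)
    (hy : ∀ i, y i ∈ lat ((2 : ℝ) • B)) (c : Fin d → ℕ) (hc : ∀ i, c i ≤ R) :
    ∑ i, (c i : ℤ) • y i ∈ lat (((2 * d * R : ℕ) : ℝ) • B) := by
  have h0 : ∀ (m : ℕ) (v : Fin r → ℤ), v ∈ lat ((2 : ℝ) • B) →
      (m : ℤ) • v ∈ lat (((2 * m : ℕ) : ℝ) • B) := by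
    intro m v hv
    obtain ⟨b, hb, hb2⟩ := hv
    refine ⟨b, hb, ?_⟩
    show ((2 * m : ℕ) : ℝ) • b = re ((m : ℤ) • v)
    have e : re ((m : ℤ) • v) = (m : ℝ) • re v := by
      funext i
      simp [re]
    rw [e, ← hb2]
    show ((2 * m : ℕ) : ℝ) • b = (m : ℝ) • ((2 : ℝ) • b)
    rw [smul_smul]
    congr 1
    push_cast
    ring
  have h1 : ∀ s : Finset (Fin d), ∑ i ∈ s, (c i : ℤ) • y i ∈
      lat (((2 * s.card * R : ℕ) : ℝ) • B) := by
    intro s
    induction s using Finset.induction_on with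
    | empty =>
      rw [Finset.sum_empty]
      have h5 : re (0 : Fin r → ℤ) = 0 := by funext i; simp [re]
      show re (0 : Fin r → ℤ) ∈ (((2 * (∅ : Finset (Fin d)).card * R : ℕ) : ℝ) • B)
      rw [h5]
      exact ⟨0, hB.zero, smul_zero _⟩
    | insert a s ha ih =>
      rw [Finset.sum_insert ha, Finset.card_insert_of_notMem ha]
      have h2 : (c a : ℤ) • y a ∈ lat (((2 * R : ℕ) : ℝ) • B) := by
        refine lat_mono (hB.mono (by positivity) ?_) (h0 (c a) (y a) (hy a))
        exact_mod_cast Nat.mul_le_mul_left 2 (hc a)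
      have h3 := hB.add (by positivity) (by positivity) h2 ih
      have e : ((2 * R : ℕ) : ℝ) + ((2 * s.card * R : ℕ) : ℝ) = ((2 * (s.card + 1) * R : ℕ) : ℝ) := by
        push_cast
        ring
      rw [e] at h3
      exact h3
  have h2 := h1 Finset.univ
  rw [Finset.card_univ, Fintype.card_fin] at h2
  exact h2

/-- Siegel's lemma: `d > r` integer points of `2 B` satisfy a relation with small coefficients. -/
theorem relation {r : ℕ} {B : Set (Fin r → ℝ)} (hB : Sym B) {d V : ℕ} (hr : r < d)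
    (hV : (lat B).ncard ≤ V) (y : Fin d → Fin r → ℤ) (hy : ∀ i, y i ∈ lat ((2 : ℝ) • B)) :
    ∃ e : Fin d → ℤ, e ≠ 0 ∧ (∀ i, |e i| ≤ ((4 * d) ^ d * V + 1 : ℕ)) ∧ ∑ i, e i • y i = 0 := by
  classical
  obtain ⟨R, hR⟩ : ∃ R, R = (4 * d) ^ d * V + 1 := ⟨_, rfl⟩
  rw [← hR]
  have hd1 : 1 ≤ d := by omega
  have hR1 : 1 ≤ R := by omega
  have hfin := hB.finite (((2 * d * R : ℕ) : ℝ))
  have hnum1 : num B 1 = (lat B).ncard := by rw [num, one_smul]
  have hcard : hfin.toFinset.card < (Finset.univ : Finset (Fin d → Fin (R + 1))).card := by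
    have h1 : hfin.toFinset.card = num B ((2 * d * R : ℕ) : ℝ) :=
      (Set.ncard_eq_toFinset_card _ hfin).symm
    rw [h1, Finset.card_univ, Fintype.card_fun, Fintype.card_fin, Fintype.card_fin]
    have h2 := num_mul hB (k := 2 * d * R) (by
      have : 1 ≤ d * R := Nat.one_le_iff_ne_zero.2 (by positivity)
      nlinarith)
    have e1 : 2 * (2 * d * R) = (4 * d) * R := by ring
    rw [hnum1, e1, mul_pow] at h2
    have h3 : (4 * d) ^ r ≤ (4 * d) ^ d := Nat.pow_le_pow_right (by omega) hr.le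
    have h4 : (4 * d) ^ r * R ^ r * (lat B).ncard ≤ R ^ d := by
      calc (4 * d) ^ r * R ^ r * (lat B).ncard ≤ (4 * d) ^ d * R ^ r * V :=
            Nat.mul_le_mul (Nat.mul_le_mul_right _ h3) hV
        _ = R ^ r * ((4 * d) ^ d * V) := by ring
        _ ≤ R ^ r * R := Nat.mul_le_mul_left _ (by omega)
        _ = R ^ (r + 1) := (pow_succ _ _).symm
        _ ≤ R ^ d := Nat.pow_le_pow_right hR1 hr
    have h5 : R ^ d < (R + 1) ^ d := Nat.pow_lt_pow_left (by omega) (by omega)
    exact lt_of_le_of_lt (h2.trans h4) h5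
  obtain ⟨c, -, c', -, hne, heq⟩ := Finset.exists_ne_map_eq_of_card_lt_of_maps_to hcard
    (f := fun c : Fin d → Fin (R + 1) => ∑ i, (((c i : ℕ) : ℤ)) • y i) (by
      intro c _
      rw [Finset.mem_coe, Set.Finite.mem_toFinset]
      exact comb_mem hB y hy (fun i => (c i : ℕ)) (fun i => by have := (c i).2; omega))
  refine ⟨fun i => ((c i : ℕ) : ℤ) - ((c' i : ℕ) : ℤ), ?_, ?_, ?_⟩
  · intro h
    apply hne
    funext i
    have h1 := congrFun h i
    simp only [Pi.zero_apply] at h1
    apply Fin.ext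
    omega
  · intro i
    have h1 := (c i).2
    have h2 := (c' i).2
    show |((c i : ℕ) : ℤ) - ((c' i : ℕ) : ℤ)| ≤ (R : ℕ)
    rw [abs_le]
    constructor <;> omega
  · have : ∀ i, (((c i : ℕ) : ℤ) - ((c' i : ℕ) : ℤ)) • y i =
        ((c i : ℕ) : ℤ) • y i - ((c' i : ℕ) : ℤ) • y i := fun i => sub_smul _ _ _
    rw [Finset.sum_congr rfl fun i _ => this i, Finset.sum_sub_distrib]
    have heq2 : ∑ i, ((c i : ℕ) : ℤ) • y i = ∑ i, ((c' i : ℕ) : ℤ) • y i := heq
    rw [heq2, sub_self]

/-- **Sharpness in `ℤ`.** -/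
theorem sharp_int (n d M : ℕ) (hn : 1 ≤ n) :
    ∃ A : Finset ℤ, A.Nonempty ∧ (sm A n).card ≤ n ^ d * A.card ∧
      ∀ r < d, ∀ B : Set (Fin r → ℝ), Convex ℝ B → IsCompact B → (∀ x ∈ B, -x ∈ B) →
        (lat B).ncard ≤ M * A.card → ∀ (ψ : (Fin r → ℤ) →+ ℤ) (T : Finset ℤ),
        (∀ a ∈ A, ∃ t ∈ T, ∃ x ∈ lat B, a = t + ψ x) → M < T.card := by
  classical
  obtain ⟨N, hN⟩ : ∃ N, N = M + 1 := ⟨_, rfl⟩
  obtain ⟨R, hR⟩ : ∃ R, R = (4 * d) ^ d * (M * N ^ d) + 1 := ⟨_, rfl⟩
  obtain ⟨W, hW⟩ : ∃ W : ℕ, W = d * R * N + N + 1 := ⟨_, rfl⟩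
  have hW0 : (0 : ℤ) < W := by
    have : 0 < W := by omega
    exact_mod_cast this
  obtain ⟨φ, hφ⟩ : ∃ φ, φ = dig (W : ℤ) d := ⟨_, rfl⟩
  have hinj : ∀ x : Fin d → ℤ, (∀ j, |x j| < W) → φ x = 0 → x = 0 := by
    rw [hφ]; exact dig_inj hW0 d
  have hbox : ∀ a ∈ bx d N, ∀ b ∈ bx d N, ∀ j, |(a - b) j| ≤ N := by
    intro a ha b hb j
    have h1 := mem_bx.1 ha j
    have h2 := mem_bx.1 hb j
    rw [Pi.sub_apply, abs_le]
    constructor <;> omega
  have hinj2 : Set.InjOn φ (bx d N : Set (Fin d → ℤ)) := by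
    intro a ha b hb hab
    have h1 : φ (a - b) = 0 := by rw [map_sub, hab, sub_self]
    have h2 := hinj (a - b) (fun j => lt_of_le_of_lt (hbox a ha b hb j) (by
      have : N < W := by omega
      exact_mod_cast this)) h1
    exact sub_eq_zero.1 h2
  have hcard : ((bx d N).image φ).card = N ^ d := by
    rw [Finset.card_image_of_injOn hinj2, bx_card]
  refine ⟨(bx d N).image φ, ?_, ?_, ?_⟩
  · rw [← Finset.card_pos, hcard]
    have : 0 < N := by omega
    positivity
  · rw [← sm_image, hcard]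
    refine Finset.card_image_le.trans ?_
    have := bx_sm hn d N
    rwa [bx_card] at this
  · intro r hr B hconv hcomp hsymm hvol ψ T hcov
    by_contra hcon
    push Not at hcon
    rw [hcard] at hvol
    have hNpos : 0 < N := by omega
    have hd1 : 1 ≤ d := by omega
    have hcov' : ∀ a : Fin d → ℤ, ∃ p : ℤ × (Fin r → ℤ), a ∈ bx d N →
        p.1 ∈ T ∧ p.2 ∈ lat B ∧ φ a = p.1 + ψ p.2 := by
      intro a
      by_cases ha : a ∈ bx d N
      · obtain ⟨t, ht, x, hx, e⟩ := hcov (φ a) (Finset.mem_image_of_mem _ ha)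
        exact ⟨(t, x), fun _ => ⟨ht, hx, e⟩⟩
      · exact ⟨(0, 0), fun h => absurd h ha⟩
    choose g hg using hcov'
    -- a popular translate
    obtain ⟨t, ht, hbig⟩ : ∃ t ∈ T, N ^ d < ((bx d N).filter (fun a => (g a).1 = t)).card * N := by
      by_contra hcon2
      push Not at hcon2
      have h1 : (bx d N).card = ∑ t ∈ T, ((bx d N).filter (fun a => (g a).1 = t)).card :=
        Finset.card_eq_sum_card_fiberwise (fun a ha => (hg a ha).1)
      have h2 : N ^ d * N ≤ T.card * N ^ d := by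
        calc N ^ d * N = (∑ t ∈ T, ((bx d N).filter (fun a => (g a).1 = t)).card) * N := by
              rw [← h1, bx_card]
          _ = ∑ t ∈ T, ((bx d N).filter (fun a => (g a).1 = t)).card * N := Finset.sum_mul _ _ _
          _ ≤ ∑ _t ∈ T, N ^ d := Finset.sum_le_sum fun t ht => hcon2 t ht
          _ = T.card * N ^ d := by rw [Finset.sum_const, smul_eq_mul]
      have h3 : T.card * N ^ d ≤ M * N ^ d := Nat.mul_le_mul_right _ hcon
      have h4 : N ^ d * N = M * N ^ d + N ^ d := by rw [hN]; ring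
      have h5 : 0 < N ^ d := by positivity
      omega
    obtain ⟨X, hX⟩ : ∃ X, X = (bx d N).filter (fun a => (g a).1 = t) := ⟨_, rfl⟩
    rw [← hX] at hbig
    have hXsub : X ⊆ bx d N := by rw [hX]; exact Finset.filter_subset _ _
    have hXg : ∀ a ∈ X, (g a).2 ∈ lat B ∧ φ a = t + ψ (g a).2 := by
      intro a ha
      rw [hX] at ha
      have h1 := Finset.mem_filter.1 ha
      have h2 := hg a h1.1
      rw [h1.2] at h2
      exact h2.2
    have hXne : X.Nonempty := by
      rw [Finset.nonempty_iff_ne_empty]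
      rintro h
      rw [h, Finset.card_empty, zero_mul] at hbig
      omega
    obtain ⟨a₀, ha₀⟩ := hXne
    have hSym : Sym B := ⟨hconv, hcomp, hsymm, ⟨_, (hXg a₀ ha₀).1⟩⟩
    have hspan : Submodule.span ℚ (Set.range fun a : X => rq ((a : Fin d → ℤ) - a₀)) = ⊤ := by
      by_contra h
      have := span_small X hXsub a₀ h
      omega
    -- a basis from the differences
    obtain ⟨b, hb⟩ : ∃ b : Basis (Fin d) ℚ (Fin d → ℚ),
        ∀ i, ∃ a : X, b i = rq ((a : Fin d → ℤ) - a₀) := by
      let b0 := Basis.ofSpan hspan.ge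
      have hc : Fintype.card (Fin d) = finrank ℚ (Fin d → ℚ) := by simp
      have := b0.fintypeIndexOfRankLtAleph0 (by
        exact Module.rank_lt_aleph0 ℚ (Fin d → ℚ))
      have hc2 : Fintype.card (Fin d) = Fintype.card _ := hc.trans (finrank_eq_card_basis b0)
      let e := Fintype.equivOfCardEq hc2
      refine ⟨b0.reindex e.symm, fun i => ?_⟩
      have h1 : b0 (e i) ∈ Set.range fun a : X => rq ((a : Fin d → ℤ) - a₀) :=
        Basis.ofSpan_subset hspan.ge ⟨e i, rfl⟩
      obtain ⟨a, ha⟩ := h1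
      refine ⟨a, ?_⟩
      rw [Basis.reindex_apply, Equiv.symm_symm]
      exact ha.symm
    choose a ha using hb
    -- the relation
    obtain ⟨e, he0, heR, hrel⟩ := relation hSym hr hvol
      (fun i => (g (a i)).2 - (g a₀).2) (by
        intro i
        have h1 := hSym.sub (s := 1) (t := 1) (by norm_num) (by norm_num)
          (v := (g (a i)).2) (w := (g a₀).2)
          (by rw [one_smul]; exact (hXg _ (a i).2).1) (by rw [one_smul]; exact (hXg _ ha₀).1)
        have e2 : (1 : ℝ) + 1 = 2 := by norm_num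
        rw [e2] at h1
        exact h1)
    rw [← hR] at heR
    have h1 : φ (∑ i, e i • ((a i : Fin d → ℤ) - a₀)) = 0 := by
      have h2 : ∀ i, φ (e i • ((a i : Fin d → ℤ) - a₀)) =
          ψ (e i • ((g (a i)).2 - (g a₀).2)) := by
        intro i
        rw [map_zsmul, map_zsmul, map_sub, map_sub, (hXg _ (a i).2).2, (hXg _ ha₀).2]
        congr 1
        ring
      rw [map_sum, Finset.sum_congr rfl fun i _ => h2 i, ← map_sum, hrel, map_zero]
    have h2 : ∑ i, e i • ((a i : Fin d → ℤ) - a₀) = 0 := by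
      refine hinj _ (fun j => ?_) h1
      rw [Finset.sum_apply]
      have h3 : |∑ i, (e i • ((a i : Fin d → ℤ) - a₀)) j| ≤ ∑ _i : Fin d, (R : ℤ) * N := by
        refine (Finset.abs_sum_le_sum_abs _ _).trans (Finset.sum_le_sum fun i _ => ?_)
        rw [Pi.smul_apply, smul_eq_mul, abs_mul]
        exact mul_le_mul (heR i) (hbox _ (hXsub (a i).2) _ (hXsub ha₀) j) (abs_nonneg _)
          (by positivity)
      rw [Finset.sum_const, Finset.card_univ, Fintype.card_fin, nsmul_eq_mul] at h3
      refine lt_of_le_of_lt h3 ?_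
      rw [hW]
      push_cast
      have : (0 : ℤ) ≤ N := by positivity
      linarith
    have h3 : ∑ i, (e i : ℚ) • b i = 0 := by
      have h4 : ∀ i, (e i : ℚ) • b i = rq (e i • ((a i : Fin d → ℤ) - a₀)) := by
        intro i
        rw [ha i, map_zsmul, Int.cast_smul_eq_zsmul]
      rw [Finset.sum_congr rfl fun i _ => h4 i, ← map_sum, h2, map_zero]
    have h4 := Fintype.linearIndependent_iff.1 b.linearIndependent (fun i => (e i : ℚ)) h3
    apply he0
    funext i
    have := h4 i
    exact_mod_cast this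

end Pool.Agent.Q297.IT
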