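import Pool.Agent.Y806.DF.C
import Pool.Agent.TH513.IS.Sums

/-!
# Reducing the volume of a convex coset progression
-/

set_option autoImplicit false

namespace Pool.Agent.Q297.IT

open Finset Pool.Agent.Y806.DF Pool.Agent.TH513.IS
open scoped Pointwise

theorem Body.sym {r : ℕ} {B : Set (Fin r → ℝ)} (hB : Body B) : Sym B :=
  ⟨hB.1, hB.2.1, hB.2.2.2, hB.2.2.1.mono interior_subset⟩

/-- A cover by translates of a convex coset progression of volume at most `V n` is turned into
a cover by translates of one of volume at most `n`, with not larger dimension (or dimension one),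
at the cost of a factor `6 V 1024 ^ d`. -/
theorem shrink {Γ : Type*} [AddCommGroup Γ] [DecidableEq Γ] {n : ℕ} (hn : 1 ≤ n) {V : ℝ}
    (hV : 1 ≤ V) {d : ℕ} {B : Set (Fin d → ℝ)} (hB : Body B) {ψ : (Fin d → ℤ) →+ Γ}
    {H : AddSubgroup Γ} (hH : Finite H) {T A : Finset Γ}
    (hvol : ((lat B).ncard : ℝ) * Nat.card H ≤ V * n) (hcov : Cov B ψ H T A) :
    ∃ (r : ℕ) (B' : Set (Fin r → ℝ)) (θ : (Fin r → ℤ) →+ Γ) (H' : AddSubgroup Γ)
      (T' : Finset Γ), (r = d ∨ r = 1) ∧ Body B' ∧ Finite H' ∧
      (lat B').ncard * Nat.card H' ≤ n ∧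
      (T'.card : ℝ) ≤ T.card * (1024 ^ d * (6 * V)) ∧ Cov B' θ H' T' A := by
  classical
  have hBs := Body.sym hB
  have hnr : (0 : ℝ) < n := by exact_mod_cast hn
  have hHpos : 0 < Nat.card H := Nat.card_pos
  have hHr : (0 : ℝ) < Nat.card H := by exact_mod_cast hHpos
  have hfin : (lat B).Finite := lat_finite hB.2.1.isBounded
  have h1024 : (1 : ℝ) ≤ 1024 ^ d := one_le_pow₀ (by norm_num)
  rcases Nat.lt_or_ge n (Nat.card H) with hbig | hsmall
  · -- a large finite subgroup
    obtain ⟨l, g', H₁, T₁, hfin1, hle, hvol1, hT₁, hcov₁⟩ := H112.big_subgroup H hH hn hbig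
    let θ : (Fin 1 → ℤ) →+ Γ :=
      { toFun := fun c => c 0 • g'
        map_zero' := by simp
        map_add' := by intro a b; simp [add_smul] }
    refine ⟨1, Metric.closedBall 0 ((l : ℝ) + 1 / 2), θ, H₁, T + (hfin.toFinset.image ψ + T₁),
      Or.inr rfl, ⟨?_, ?_, ?_, ?_⟩, hfin1, ?_, ?_, ?_⟩
    · exact convex_closedBall _ _
    · exact isCompact_closedBall _ _
    · refine ⟨0, mem_interior.2 ⟨Metric.ball 0 ((l : ℝ) + 1 / 2), Metric.ball_subset_closedBall,
        Metric.isOpen_ball, Metric.mem_ball_self (by positivity)⟩⟩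
    · intro x hx
      rw [mem_closedBall_zero_iff] at hx ⊢
      rw [norm_neg]
      exact hx
    · have h1 : (lat (Metric.closedBall (0 : Fin 1 → ℝ) ((l : ℝ) + 1 / 2))).ncard ≤ 2 * l + 1 := by
        have h2 : (lat (Metric.closedBall (0 : Fin 1 → ℝ) ((l : ℝ) + 1 / 2))).ncard ≤
            (Set.Icc (-(l : ℤ)) (l : ℤ)).ncard := by
          refine Set.ncard_le_ncard_of_injOn (fun c => c 0) ?_ ?_ (Set.finite_Icc _ _)
          · intro c hc
            have h3 := mem_closedBall_zero_iff.1 hc
            have h4 := (norm_le_pi_norm (re c) 0).trans h3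
            have h5 : |((c 0 : ℤ) : ℝ)| ≤ (l : ℝ) + 1 / 2 := h4
            have h6 : |c 0| ≤ (l : ℤ) := by
              by_contra hcon
              push Not at hcon
              have h7 : ((l : ℤ) : ℝ) + 1 ≤ (|c 0| : ℤ) := by exact_mod_cast hcon
              push_cast at h7
              linarith
            exact ⟨(abs_le.1 h6).1, (abs_le.1 h6).2⟩
          · intro a _ b _ hab
            funext i
            fin_cases i
            exact hab
        have h8 : (Set.Icc (-(l : ℤ)) (l : ℤ)).ncard = 2 * l + 1 := by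
          rw [Set.ncard_eq_toFinset_card', Set.toFinset_Icc, Int.card_Icc]
          omega
        omega
      exact (Nat.mul_le_mul_right _ h1).trans hvol1
    · have h2 : ((T + (hfin.toFinset.image ψ + T₁)).card : ℝ) ≤
          T.card * ((lat B).ncard * T₁.card) := by
        have h3 : (T + (hfin.toFinset.image ψ + T₁)).card ≤
            T.card * ((lat B).ncard * T₁.card) := by
          refine Finset.card_add_le.trans (Nat.mul_le_mul_left _ (Finset.card_add_le.trans ?_))
          refine Nat.mul_le_mul_right _ (Finset.card_image_le.trans ?_)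
          rw [Set.ncard_eq_toFinset_card _ hfin]
        exact_mod_cast h3
      refine h2.trans (mul_le_mul_of_nonneg_left ?_ (Nat.cast_nonneg _))
      have h4 : ((lat B).ncard : ℝ) * T₁.card ≤ 6 * V := by
        have h5 : (((lat B).ncard : ℝ) * T₁.card) * n ≤ (6 * V) * n := by
          calc (((lat B).ncard : ℝ) * T₁.card) * n = (lat B).ncard * (T₁.card * n) := by ring
            _ ≤ (lat B).ncard * (6 * Nat.card H) :=
              mul_le_mul_of_nonneg_left hT₁ (Nat.cast_nonneg _)
            _ = 6 * ((lat B).ncard * Nat.card H) := by ring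
            _ ≤ 6 * (V * n) := by linarith
            _ = (6 * V) * n := by ring
        exact le_of_mul_le_mul_right h5 hnr
      refine h4.trans ?_
      have : 0 ≤ 6 * V := by linarith
      nlinarith
    · intro a ha
      obtain ⟨t, ht, x, hx, h, hh, rfl⟩ := hcov a ha
      obtain ⟨t', ht', c, hc, k, hk, hk2⟩ := hcov₁ h hh
      refine ⟨t + (ψ x + t'), Finset.add_mem_add ht (Finset.add_mem_add
        (Finset.mem_image_of_mem _ ((Set.Finite.mem_toFinset hfin).2 hx)) ht'),
        fun _ => c, ?_, k, hk, ?_⟩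
      · show re (fun _ => c) ∈ Metric.closedBall (0 : Fin 1 → ℝ) ((l : ℝ) + 1 / 2)
        rw [mem_closedBall_zero_iff, pi_norm_le_iff_of_nonneg (by positivity)]
        intro i
        show |(c : ℝ)| ≤ _
        have : |(c : ℝ)| ≤ l := by exact_mod_cast hc
        linarith
      · show t + ψ x + h = t + (ψ x + t') + c • g' + k
        rw [hk2]
        abel
  · -- the main case
    have hm : (1 : ℝ) ≤ (n : ℝ) / Nat.card H := by
      rw [le_div_iff₀ hHr, one_mul]
      exact_mod_cast hsmall
    obtain ⟨s, F, hs, hsm, hF, hcovF⟩ := scale hBs hm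
    have hnum : (num B 1 : ℝ) = (lat B).ncard := by rw [num, one_smul]
    have hmax : max 1 ((num B 1 : ℝ) / ((n : ℝ) / Nat.card H)) ≤ 6 * V := by
      apply max_le (by linarith)
      rw [div_div_eq_mul_div, div_le_iff₀ hnr, hnum]
      have : 0 ≤ V * n := by positivity
      linarith
    obtain ⟨B', hB', hlat⟩ := fatten (hBs.smul s)
    refine ⟨d, B', ψ, H, T + F.image ψ, Or.inl rfl, hB', hH, ?_, ?_, ?_⟩
    · rw [hlat]
      have h1 : (num B s : ℝ) * Nat.card H ≤ n := by
        rw [le_div_iff₀ hHr] at hsm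
        exact hsm
      exact_mod_cast h1
    · have h1 : ((T + F.image ψ).card : ℝ) ≤ T.card * F.card := by
        exact_mod_cast Finset.card_add_le.trans (Nat.mul_le_mul_left _ Finset.card_image_le)
      refine h1.trans (mul_le_mul_of_nonneg_left (hF.trans ?_) (Nat.cast_nonneg _))
      exact mul_le_mul_of_nonneg_left hmax (by positivity)
    · intro a ha
      obtain ⟨t, ht, x, hx, h, hh, rfl⟩ := hcov a ha
      have hx2 : x ∈ lat ((2 : ℝ) • B) := by
        have h1 : (1 : ℝ) • B ⊆ (2 : ℝ) • B := hBs.mono (by norm_num) (by norm_num)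
        rw [one_smul] at h1
        exact lat_mono h1 hx
      obtain ⟨f, hf, w, hw, rfl⟩ := hcovF x hx2
      refine ⟨t + ψ f, Finset.add_mem_add ht (Finset.mem_image_of_mem _ hf), w, ?_, h, hh, ?_⟩
      · rw [hlat]
        exact lat_mono (hBs.mono (by positivity) (by linarith)) hw
      · rw [map_add]
        abel

end Pool.Agent.Q297.IT
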