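import Pool.Agent.Q297.IT.Upper
import Pool.Agent.Q297.IT.Shrink
import Pool.Agent.TH513.IS.Final

/-!
# Iterated sumsets with the sharp dimension
-/

set_option autoImplicit false

namespace Pool.Agent.Q297.IT

open Finset Pool.Agent.Y806.DF Pool.Agent.TH513.IS
open scoped Pointwise

universe u

theorem iterated {Γ : Type u} [AddCommGroup Γ] [DecidableEq Γ] {ε : ℝ} (h0 : 0 < ε) (h1 : ε ≤ 1)
    {k n : ℕ} (hk : 1 ≤ k) (hn : 2 ≤ n) {L : ℝ} {A : Finset Γ} (hA : A.Nonempty)
    (hL : ((sm A n).card : ℝ) ≤ L * A.card) (hkn : Real.log (2 * L) ≤ (n : ℝ) ^ k) :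
    ∃ (d : ℕ) (B : Set (Fin d → ℝ)) (ψ : (Fin d → ℤ) →+ Γ) (H : AddSubgroup Γ) (T : Finset Γ),
      (d : ℝ) ≤ max 1 ((1 + ε) * (Real.logb 2 L / Nat.log 2 n) + ε) ∧ Body B ∧ Finite H ∧
      (lat B).ncard * Nat.card H ≤ A.card ∧
      (T.card : ℝ) ≤ (2 * L) ^ (8 * k * (900 / ε) ^ (4 * ⌈3000 / ε⌉₊)) ∧ Cov B ψ H T A := by
  classical
  have hApos : (0 : ℝ) < A.card := by exact_mod_cast hA.card_pos
  have hL1 : 1 ≤ L := by
    have h1 : A.card ≤ (sm A n).card := by
      have := sm_card_mono hA (show 1 ≤ n by omega)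
      rwa [sm_one] at this
    have h2 : (A.card : ℝ) ≤ (sm A n).card := by exact_mod_cast h1
    nlinarith
  have hL0 : 0 < L := by linarith
  obtain ⟨J, hJ⟩ : ∃ J, J = Nat.log 2 n := ⟨_, rfl⟩
  have hJ1 : 1 ≤ J := by
    rw [hJ]
    exact Nat.log_pos (by norm_num) hn
  have hJR : (1 : ℝ) ≤ J := by exact_mod_cast hJ1
  have hL' : ((sm A (2 ^ J)).card : ℝ) ≤ L * A.card := by
    have h1 : (sm A (2 ^ J)).card ≤ (sm A n).card := by
      apply sm_card_mono hA
      rw [hJ]
      exact Nat.pow_log_le_self 2 (by omega)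
    have h2 : ((sm A (2 ^ J)).card : ℝ) ≤ (sm A n).card := by exact_mod_cast h1
    exact h2.trans hL
  obtain ⟨K, hK⟩ : ∃ K : ℝ, K = L ^ (1 / (J : ℝ)) := ⟨_, rfl⟩
  have hK1 : 1 ≤ K := by
    rw [hK]
    exact Real.one_le_rpow hL1 (by positivity)
  have hK0 : 0 < K := by linarith
  have hKJ : K ^ J = L := by
    rw [hK, ← Real.rpow_natCast, ← Real.rpow_mul (by linarith)]
    have : 1 / (J : ℝ) * J = 1 := by field_simp
    rw [this, Real.rpow_one]
  have hlogb : Real.logb 2 K = Real.logb 2 L / J := by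
    rw [hK, Real.logb_rpow_eq_mul_logb_of_pos hL0]
    ring
  obtain ⟨i, hi, hiK⟩ := exists_scale hA hK0 (by rw [hKJ]; exact hL') hJ1
  obtain ⟨B₀, hB₀⟩ : ∃ B₀, B₀ = sm A (2 ^ i) := ⟨_, rfl⟩
  have hBne : B₀.Nonempty := by rw [hB₀]; exact sm_nonempty hA _
  have hBB : ((B₀ + B₀).card : ℝ) ≤ K * B₀.card := by
    have h1 : (B₀ + B₀).card ≤ (sm A (2 ^ (i + 1))).card := by
      apply Finset.card_le_card
      have e : 2 ^ (i + 1) = 2 ^ i + 2 ^ i := by ring
      rw [hB₀, e]
      exact sm_add_subset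
    have h2 : ((B₀ + B₀).card : ℝ) ≤ (sm A (2 ^ (i + 1))).card := by exact_mod_cast h1
    rw [← hB₀] at hiK
    exact h2.trans hiK
  have hBL : (B₀.card : ℝ) ≤ L * A.card := by
    have h1 : B₀.card ≤ (sm A (2 ^ J)).card := by
      rw [hB₀]
      exact sm_card_mono hA (Nat.pow_le_pow_right (by norm_num) hi.le)
    have h2 : (B₀.card : ℝ) ≤ (sm A (2 ^ J)).card := by exact_mod_cast h1
    exact h2.trans hL'
  obtain ⟨d, B, ψ, H, T, hd, hB, hH, hvol, hT, hcov⟩ := upper h0 h1 K B₀ hBne hBB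
  obtain ⟨a₀, ha₀⟩ := hA
  obtain ⟨q, hq⟩ : ∃ q, 2 ^ i = q + 1 := ⟨2 ^ i - 1, by
    have := Nat.one_le_two_pow (n := i)
    omega⟩
  -- `A` is covered as well
  have hcov1 : Cov B ψ H (T.image (fun x => x - q • a₀)) A := by
    intro a ha
    have h3 : a + q • a₀ ∈ B₀ := by
      rw [hB₀, hq, add_comm q 1]
      exact add_mem_sm (sm_one_mem ha) (nsmul_mem_sm ha₀ q)
    obtain ⟨t, ht, x, hx, h, hh, e⟩ := hcov _ h3
    refine ⟨t - q • a₀, Finset.mem_image_of_mem _ ht, x, hx, h, hh, ?_⟩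
    have e2 : a = (a + q • a₀) - q • a₀ := by abel
    rw [e2, e]
    abel
  have hT1 : ((T.image (fun x => x - q • a₀)).card : ℝ) ≤ T.card := by
    exact_mod_cast Finset.card_image_le
  have hvol1 : ((lat B).ncard : ℝ) * Nat.card H ≤ L * A.card := by
    have h2 : (((lat B).ncard * Nat.card H : ℕ) : ℝ) ≤ B₀.card := by exact_mod_cast hvol
    push_cast at h2
    exact h2.trans hBL
  obtain ⟨r, B', θ, H', T', hr, hB', hH', hvol', hT', hcov'⟩ :=
    shrink (n := A.card) (by exact_mod_cast hApos) hL1 hB hH hvol1 hcov1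
  refine ⟨r, B', θ, H', T', ?_, hB', hH', hvol', ?_, hcov'⟩
  · rw [← hJ, ← hlogb]
    rcases hr with hr | hr
    · rw [hr]; exact hd
    · rw [hr]
      refine le_trans (le_of_eq ?_) (le_max_left _ _)
      norm_num
  · -- numbers
    obtain ⟨C, hC⟩ : ∃ C : ℝ, C = (900 / ε) ^ (4 * ⌈3000 / ε⌉₊) := ⟨_, rfl⟩
    have hC900 : 900 ≤ C := by
      have h2 : (900 : ℝ) ≤ 900 / ε := by
        rw [le_div_iff₀ h0]
        linarith
      have h3 : 1 ≤ 4 * ⌈3000 / ε⌉₊ := by
        have : 1 ≤ ⌈3000 / ε⌉₊ := Nat.one_le_ceil_iff.2 (by positivity)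
        omega
      rw [hC]
      exact h2.trans (le_self_pow₀ (by linarith) (by omega))
    have hkR : (1 : ℝ) ≤ k := by exact_mod_cast hk
    obtain ⟨κ, hκ⟩ : ∃ κ, κ = Real.log (2 * L) := ⟨_, rfl⟩
    obtain ⟨κ', hκ'⟩ : ∃ κ', κ' = Real.log (2 * K) := ⟨_, rfl⟩
    have hκ'2 : κ' = Real.log 2 + Real.log L / (Nat.log 2 n : ℝ) := by
      rw [hκ', Real.log_mul (by norm_num) (by linarith), hK, Real.log_rpow (by linarith), ← hJ]
      ring
    obtain ⟨-, hb2⟩ := kappa_bounds hk hn hL1 hκ'2 hkn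
    rw [← hκ] at hb2
    have hlog2 : 0.69 < Real.log 2 := by have := Real.log_two_gt_d9; linarith
    have hlogL : 0 ≤ Real.log L := Real.log_nonneg hL1
    have hκL : κ = Real.log 2 + Real.log L := by
      rw [hκ, Real.log_mul (by norm_num) hL0.ne']
    have hκ0 : 0 < κ := by linarith
    have hmain : κ' * (1 + Real.log (1 + κ')) ≤ 7 * (k * κ) := by
      have h2 : 0 ≤ k * κ := by positivity
      have h3 : 13000 * κ' * (1 + Real.log (1 + κ')) = 13000 * (κ' * (1 + Real.log (1 + κ'))) := by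
        ring
      have h4 : 86000 * (k : ℝ) * κ = 86000 * (k * κ) := by ring
      rw [h3, h4] at hb2
      linarith
    have hTe : (T.card : ℝ) ≤ Real.exp (7 * C * k * κ) := by
      rw [← hC, ← hκ', Real.rpow_def_of_pos (by linarith), ← hκ'] at hT
      refine hT.trans (Real.exp_le_exp.2 ?_)
      calc κ' * (C * (1 + Real.log (1 + κ'))) = C * (κ' * (1 + Real.log (1 + κ'))) := by ring
        _ ≤ C * (7 * (k * κ)) := mul_le_mul_of_nonneg_left hmain (by linarith)
        _ = 7 * C * k * κ := by ring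
    -- the factor `1024 ^ d`
    have hKL : K ≤ L := by
      rw [← hKJ]
      exact le_self_pow₀ hK1 (by omega)
    have hlb0 : 0 ≤ Real.logb 2 K := Real.logb_nonneg (by norm_num) hK1
    have hdb : (d : ℝ) * Real.log 2 ≤ Real.log 2 + 2 * Real.log L := by
      have h2 : (d : ℝ) ≤ 1 + 2 * Real.logb 2 K := by
        refine hd.trans (max_le (by linarith) ?_)
        have : ε * Real.logb 2 K ≤ 1 * Real.logb 2 K := mul_le_mul_of_nonneg_right h1 hlb0
        linarith
      have h3 : Real.logb 2 K * Real.log 2 = Real.log K := by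
        rw [Real.logb, div_mul_cancel₀ _ (by linarith)]
      have h4 : Real.log K ≤ Real.log L := Real.log_le_log hK0 hKL
      calc (d : ℝ) * Real.log 2 ≤ (1 + 2 * Real.logb 2 K) * Real.log 2 :=
            mul_le_mul_of_nonneg_right h2 (by linarith)
        _ = Real.log 2 + 2 * (Real.logb 2 K * Real.log 2) := by ring
        _ ≤ Real.log 2 + 2 * Real.log L := by rw [h3]; linarith
    have hfac : (1024 : ℝ) ^ d * (6 * L) ≤ Real.exp (21 * κ) := by
      have h2 : (1024 : ℝ) ^ d = Real.exp (10 * (d * Real.log 2)) := by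
        rw [← Real.exp_log (show (0 : ℝ) < 1024 ^ d by positivity), Real.log_pow,
          show (1024 : ℝ) = 2 ^ 10 by norm_num, Real.log_pow]
        push_cast
        ring_nf
      have h3 : 6 * L ≤ Real.exp (3 * Real.log 2 + Real.log L) := by
        rw [Real.exp_add, Real.exp_log hL0]
        have : Real.exp (3 * Real.log 2) = 8 := by
          rw [show (3 : ℝ) * Real.log 2 = Real.log (2 ^ 3) by rw [Real.log_pow]; push_cast; ring,
            Real.exp_log (by norm_num)]
          norm_num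
        rw [this]
        linarith
      rw [h2]
      calc Real.exp (10 * (d * Real.log 2)) * (6 * L)
          ≤ Real.exp (10 * (d * Real.log 2)) * Real.exp (3 * Real.log 2 + Real.log L) :=
            mul_le_mul_of_nonneg_left h3 (Real.exp_pos _).le
        _ = Real.exp (10 * (d * Real.log 2) + (3 * Real.log 2 + Real.log L)) :=
            (Real.exp_add _ _).symm
        _ ≤ Real.exp (21 * κ) := by
            apply Real.exp_le_exp.2
            rw [hκL]
            linarith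
    have e1 : (2 * L) ^ (8 * k * C) = Real.exp (κ * (8 * k * C)) := by
      rw [Real.rpow_def_of_pos (by linarith), ← hκ]
    rw [← hC, e1]
    calc (T'.card : ℝ) ≤ (T.image (fun x => x - q • a₀)).card * (1024 ^ d * (6 * L)) := hT'
      _ ≤ T.card * (1024 ^ d * (6 * L)) := mul_le_mul_of_nonneg_right hT1 (by positivity)
      _ ≤ Real.exp (7 * C * k * κ) * Real.exp (21 * κ) :=
          mul_le_mul hTe hfac (by positivity) (Real.exp_pos _).le
      _ = Real.exp (7 * C * k * κ + 21 * κ) := (Real.exp_add _ _).symm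
      _ ≤ Real.exp (κ * (8 * k * C)) := by
          apply Real.exp_le_exp.2
          have h2 : 21 ≤ C * k := by nlinarith
          have h3 : 21 * κ ≤ (C * k) * κ := mul_le_mul_of_nonneg_right h2 hκ0.le
          linarith

end Pool.Agent.Q297.IT
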