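import Pool.Agent.Q148.SD13

/-!
# The near-polynomial Freiman-Ruzsa theorem with the sharp dimension

The argument is the one of `MP_dd2a7c_co.SharpDimension`.
-/

set_option autoImplicit false

namespace Pool.Agent.Q297.IT

open Q148.SD Pool.Agent.Y806.DF
open scoped Pointwise

universe u

theorem exp_const {ε : ℝ} (h0 : 0 < ε) :
    10 ^ 9 / (ε / 5) ^ 4 ≤ (900 / ε) ^ 4 := by
  have e1 : (10 : ℝ) ^ 9 / (ε / 5) ^ 4 = (625 * 10 ^ 9) / ε ^ 4 := by
    field_simp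
    norm_num
  rw [e1, div_pow]
  apply div_le_div_of_nonneg_right _ (by positivity)
  norm_num

theorem upper {Γ : Type u} [AddCommGroup Γ] [DecidableEq Γ] {ε : ℝ} (h0 : 0 < ε) (h1 : ε ≤ 1)
    (K : ℝ) (A : Finset Γ) (hA : A.Nonempty) (hK : ((A + A).card : ℝ) ≤ K * A.card) :
    ∃ (d : ℕ) (B : Set (Fin d → ℝ)) (ψ : (Fin d → ℤ) →+ Γ) (H : AddSubgroup Γ) (T : Finset Γ),
      (d : ℝ) ≤ max 1 ((1 + ε) * Real.logb 2 K + ε) ∧ Body B ∧ Finite H ∧
      (lat B).ncard * Nat.card H ≤ A.card ∧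
      (T.card : ℝ) ≤ (2 * K) ^ ((900 / ε) ^ (4 * ⌈3000 / ε⌉₊) *
        (1 + Real.log (1 + Real.log (2 * K)))) ∧ Cov B ψ H T A := by
  classical
  have hApos : (0 : ℝ) < A.card := by exact_mod_cast hA.card_pos
  have hK1 : 1 ≤ K := by
    have h2 : (A.card : ℝ) ≤ (A + A).card := by
      exact_mod_cast Finset.card_le_card_add_right hA
    nlinarith
  have hK0 : 0 < K := by linarith
  obtain ⟨m, B, ψ, H, T₀, hm, hB, hH, hvol, hT₀, hcov⟩ := H112.near_pfr hA hK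
  obtain ⟨D, hD⟩ : ∃ D : ℝ, D = Real.log (2 * K) := ⟨_, rfl⟩
  obtain ⟨L, hL⟩ : ∃ L : ℝ, L = 1 + Real.log (1 + D) := ⟨_, rfl⟩
  have hlog2a : Real.log 2 < 0.7 := log_two_lt
  have hlog2b : 0.69 < Real.log 2 := by have := Real.log_two_gt_d9; linarith
  have hDK : D = Real.log 2 + Real.log K := by rw [hD, Real.log_mul (by norm_num) hK0.ne']
  have hlogK : 0 ≤ Real.log K := Real.log_nonneg hK1
  have hD69 : 0.69 < D := by linarith
  have hD0 : 0 < D := by linarith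
  have hL1 : 1 ≤ L := by
    rw [hL]
    have := Real.log_nonneg (by linarith : 1 ≤ 1 + D)
    linarith
  have hLD : 1 + D = Real.exp (L - 1) := by
    rw [hL, add_sub_cancel_left, Real.exp_log (by linarith)]
  obtain ⟨N, hN⟩ := gauge_exists hB
  obtain ⟨η, hη⟩ : ∃ η : ℝ, η = ε / 5 := ⟨_, rfl⟩
  have hη0 : 0 < η := by rw [hη]; positivity
  have hη1 : η ≤ 1 := by rw [hη]; linarith
  obtain ⟨C1, hC1⟩ : ∃ C1 : ℝ, C1 = 10 ^ 9 / η ^ 4 := ⟨_, rfl⟩
  have hC11 : 1 ≤ C1 := by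
    rw [hC1, le_div_iff₀ (by positivity)]
    have : η ^ 4 ≤ 1 := pow_le_one₀ hη0.le hη1
    linarith
  obtain ⟨I, hI⟩ : ∃ I : ℕ, I = ⌈3000 / ε⌉₊ := ⟨_, rfl⟩
  have hI1 : 1 ≤ I := by rw [hI]; exact Nat.one_le_ceil_iff.2 (by positivity)
  have hIη : 2 * (m : ℝ) ≤ I * (η * D) := by
    have h2 : 3000 / ε ≤ I := by rw [hI]; exact Nat.le_ceil _
    have h3 : 3000 / ε * (η * D) ≤ I * (η * D) := mul_le_mul_of_nonneg_right h2 (by positivity)
    have h4 : 3000 / ε * (η * D) = 600 * D := by rw [hη]; field_simp; norm_num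
    rw [← hD] at hm
    linarith
  obtain ⟨i, hi, hdim⟩ := choose_scale N ψ H (fun i => C1 ^ i * L) hI1 hIη
  have hCi : 1 ≤ C1 ^ i := one_le_pow₀ hC11
  obtain ⟨s, hs⟩ : ∃ s : ℝ, s = C1 ^ i * L := ⟨_, rfl⟩
  have hLs : L ≤ s := by rw [hs]; exact le_mul_of_one_le_left (by linarith) hCi
  have hs1 : 1 ≤ s := hL1.trans hLs
  obtain ⟨s', hs'⟩ : ∃ s' : ℝ, s' = C1 ^ (i + 1) * L := ⟨_, rfl⟩
  rw [← hs, ← hs'] at hdim
  have hDs : D ≤ Real.exp s := by
    have h2 : Real.exp (L - 1) ≤ Real.exp s := Real.exp_le_exp.2 (by linarith)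
    linarith
  have hT₀' : (T₀.card : ℝ) ≤ Real.exp (13000 * D * s) := by
    refine hT₀.trans ?_
    rw [← H112.exp_eq_rpow hK1, ← hD, ← hL]
    apply Real.exp_le_exp.2
    exact mul_le_mul_of_nonneg_left hLs (by positivity)
  obtain ⟨d, B', θ, H₀, T, hd, hB', hH₀, hvol', hT, hC⟩ := one_scale hA hK hD hK1 hs1 hDs hη0 hη1
    (by rw [hD]; exact hm) hB hN hH hvol hT₀' hcov (s' := s')
    (by rw [hs', hs, ← hC1, pow_succ]; ring) hdim
  refine ⟨d, B', θ, H₀, T, ?_, hB', hH₀, hvol', ?_, hC⟩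
  · rcases hd with hd | hd
    · refine le_trans (hd.trans ?_) (le_max_right _ _)
      have hlb : Real.logb 2 K * Real.log 2 = Real.log K := by
        rw [Real.logb, div_mul_cancel₀ _ (by linarith)]
      have hlb0 : 0 ≤ Real.logb 2 K := by
        rw [Real.logb]; exact div_nonneg hlogK (by linarith)
      have h2 : 6.1 * η * D = 1.22 * ε * (Real.log 2 * (1 + Real.logb 2 K)) := by
        rw [hη, hDK, ← hlb]; ring
      have h3 : Real.log 2 * (1 + Real.logb 2 K) ≤ 0.7 * (1 + Real.logb 2 K) :=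
        mul_le_mul_of_nonneg_right hlog2a.le (by linarith)
      have h4 : 1.22 * ε * (Real.log 2 * (1 + Real.logb 2 K)) ≤ 1.22 * ε * (0.7 * (1 + Real.logb 2 K)) :=
        mul_le_mul_of_nonneg_left h3 (by positivity)
      have h5 : 0 ≤ ε * (1 + Real.logb 2 K) := by positivity
      rw [h2]
      linarith
    · rw [hd]
      exact le_trans (by norm_num) (le_max_left _ _)
  · refine hT.trans ?_
    have h2 : s' ≤ (900 / ε) ^ (4 * I) * L := by
      rw [hs']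
      refine mul_le_mul_of_nonneg_right ?_ (by linarith)
      calc C1 ^ (i + 1) ≤ C1 ^ I := pow_le_pow_right₀ hC11 hi
        _ ≤ ((900 / ε) ^ 4) ^ I := by
          refine pow_le_pow_left₀ (by linarith) ?_ _
          rw [hC1, hη]
          exact exp_const h0
        _ = (900 / ε) ^ (4 * I) := (pow_mul _ _ _).symm
    rw [← hD, ← hI, ← hL, Real.rpow_def_of_pos (by linarith), ← hD]
    apply Real.exp_le_exp.2
    exact mul_le_mul_of_nonneg_left h2 hD0.le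

end Pool.Agent.Q297.IT
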